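import Pool.Agent.V11122.Sink.Data

set_option autoImplicit false

/-! The twenty closed triangles cover the sphere. -/

namespace Pool.Agent.V11122.Sink

def ev (n : Z3) (x y z : ℝ) : ℝ := (n.1 : ℝ) * x + (n.2.1 : ℝ) * y + (n.2.2 : ℝ) * z

def InFace (f : Fin 12 × Fin 12 × Fin 12) (x y z : ℝ) : Prop :=
  0 ≤ ev (cross (P f.2.1) (P f.2.2)) x y z ∧ 0 ≤ ev (cross (P f.2.2) (P f.1)) x y z ∧
    0 ≤ ev (cross (P f.1) (P f.2.1)) x y z

theorem face0 {x y z : ℝ} (h1 : 0 ≤ -1106 * x + 505 * y + 13 * z)
    (h2 : 0 ≤ 3158 * x - 1439 * y - 41 * z)
    (h3 : 0 ≤ -1582 * x + 720 * y + 20 * z) :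
    ∃ f ∈ faces, InFace f x y z := by
  refine ⟨(10, 6, 5), by decide, ?_, ?_, ?_⟩
  · have e : cross (P 6) (P 5) = (-1106, 505, 13) := by decide +kernel
    simp only [e, ev]
    push_cast
    linarith
  · have e : cross (P 5) (P 10) = (3158, -1439, -41) := by decide +kernel
    simp only [e, ev]
    push_cast
    linarith
  · have e : cross (P 10) (P 6) = (-1582, 720, 20) := by decide +kernel
    simp only [e, ev]
    push_cast
    linarith

theorem face1 {x y z : ℝ} (h1 : 0 ≤ 3938 * x - 1727 * y - 140 * z)
    (h2 : 0 ≤ 1106 * x - 505 * y - 13 * z)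
    (h3 : 0 ≤ -2303 * x + 995 * y + 61 * z) :
    ∃ f ∈ faces, InFace f x y z := by
  refine ⟨(6, 0, 5), by decide, ?_, ?_, ?_⟩
  · have e : cross (P 0) (P 5) = (3938, -1727, -140) := by decide +kernel
    simp only [e, ev]
    push_cast
    linarith
  · have e : cross (P 5) (P 6) = (1106, -505, -13) := by decide +kernel
    simp only [e, ev]
    push_cast
    linarith
  · have e : cross (P 6) (P 0) = (-2303, 995, 61) := by decide +kernel
    simp only [e, ev]
    push_cast
    linarith

theorem face2 {x y z : ℝ} (h1 : 0 ≤ -2046 * x - 2190 * y + 230 * z)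
    (h2 : 0 ≤ -418 * x - 680 * y + 1520 * z)
    (h3 : 0 ≤ 429 * x + 2785 * y - 1560 * z) :
    ∃ f ∈ faces, InFace f x y z := by
  refine ⟨(8, 3, 4), by decide, ?_, ?_, ?_⟩
  · have e : cross (P 3) (P 4) = (-2046, -2190, 230) := by decide +kernel
    simp only [e, ev]
    push_cast
    linarith
  · have e : cross (P 4) (P 8) = (-418, -680, 1520) := by decide +kernel
    simp only [e, ev]
    push_cast
    linarith
  · have e : cross (P 8) (P 3) = (429, 2785, -1560) := by decide +kernel
    simp only [e, ev]
    push_cast
    linarith

theorem face3 {x y z : ℝ} (h1 : 0 ≤ 418 * x + 680 * y - 1520 * z)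
    (h2 : 0 ≤ -1544 * x - 1420 * y - 1300 * z)
    (h3 : 0 ≤ -253 * x + 1590 * y + 920 * z) :
    ∃ f ∈ faces, InFace f x y z := by
  refine ⟨(10, 8, 4), by decide, ?_, ?_, ?_⟩
  · have e : cross (P 8) (P 4) = (418, 680, -1520) := by decide +kernel
    simp only [e, ev]
    push_cast
    linarith
  · have e : cross (P 4) (P 10) = (-1544, -1420, -1300) := by decide +kernel
    simp only [e, ev]
    push_cast
    linarith
  · have e : cross (P 10) (P 8) = (-253, 1590, 920) := by decide +kernel
    simp only [e, ev]
    push_cast
    linarith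

theorem face4 {x y z : ℝ} (h1 : 0 ≤ -2051 * x + 880 * y + 58 * z)
    (h2 : 0 ≤ -1210 * x + 517 * y + 24 * z)
    (h3 : 0 ≤ 2303 * x - 995 * y - 61 * z) :
    ∃ f ∈ faces, InFace f x y z := by
  refine ⟨(0, 6, 2), by decide, ?_, ?_, ?_⟩
  · have e : cross (P 6) (P 2) = (-2051, 880, 58) := by decide +kernel
    simp only [e, ev]
    push_cast
    linarith
  · have e : cross (P 2) (P 0) = (-1210, 517, 24) := by decide +kernel
    simp only [e, ev]
    push_cast
    linarith
  · have e : cross (P 0) (P 6) = (2303, -995, -61) := by decide +kernel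
    simp only [e, ev]
    push_cast
    linarith

theorem face5 {x y z : ℝ} (h1 : 0 ≤ -2866 * x + 1234 * y + 70 * z)
    (h2 : 0 ≤ -1902 * x - 2270 * y + 366 * z)
    (h3 : 0 ≤ 4047 * x + 15 * y + 2351 * z) :
    ∃ f ∈ faces, InFace f x y z := by
  refine ⟨(3, 0, 11), by decide, ?_, ?_, ?_⟩
  · have e : cross (P 0) (P 11) = (-2866, 1234, 70) := by decide +kernel
    simp only [e, ev]
    push_cast
    linarith
  · have e : cross (P 11) (P 3) = (-1902, -2270, 366) := by decide +kernel
    simp only [e, ev]
    push_cast
    linarith
  · have e : cross (P 3) (P 0) = (4047, 15, 2351) := by decide +kernel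
    simp only [e, ev]
    push_cast
    linarith

theorem face6 {x y z : ℝ} (h1 : 0 ≤ -1664 * x + 1338 * y + 382 * z)
    (h2 : 0 ≤ 1544 * x + 1420 * y + 1300 * z)
    (h3 : 0 ≤ 64 * x + 524 * y - 2892 * z) :
    ∃ f ∈ faces, InFace f x y z := by
  refine ⟨(4, 1, 10), by decide, ?_, ?_, ?_⟩
  · have e : cross (P 1) (P 10) = (-1664, 1338, 382) := by decide +kernel
    simp only [e, ev]
    push_cast
    linarith
  · have e : cross (P 10) (P 4) = (1544, 1420, 1300) := by decide +kernel
    simp only [e, ev]
    push_cast
    linarith
  · have e : cross (P 4) (P 1) = (64, 524, -2892) := by decide +kernel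
    simp only [e, ev]
    push_cast
    linarith

theorem face7 {x y z : ℝ} (h1 : 0 ≤ 3082 * x - 1320 * y - 76 * z)
    (h2 : 0 ≤ -1466 * x + 1012 * y + 1852 * z)
    (h3 : 0 ≤ -1236 * x - 1496 * y + 240 * z) :
    ∃ f ∈ faces, InFace f x y z := by
  refine ⟨(7, 11, 2), by decide, ?_, ?_, ?_⟩
  · have e : cross (P 11) (P 2) = (3082, -1320, -76) := by decide +kernel
    simp only [e, ev]
    push_cast
    linarith
  · have e : cross (P 2) (P 7) = (-1466, 1012, 1852) := by decide +kernel
    simp only [e, ev]
    push_cast
    linarith
  · have e : cross (P 7) (P 11) = (-1236, -1496, 240) := by decide +kernel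
    simp only [e, ev]
    push_cast
    linarith

theorem face8 {x y z : ℝ} (h1 : 0 ≤ 506 * x - 1529 * y - 1840 * z)
    (h2 : 0 ≤ -638 * x - 1463 * y + 2320 * z)
    (h3 : 0 ≤ -3938 * x + 1727 * y + 140 * z) :
    ∃ f ∈ faces, InFace f x y z := by
  refine ⟨(5, 0, 8), by decide, ?_, ?_, ?_⟩
  · have e : cross (P 0) (P 8) = (506, -1529, -1840) := by decide +kernel
    simp only [e, ev]
    push_cast
    linarith
  · have e : cross (P 8) (P 5) = (-638, -1463, 2320) := by decide +kernel
    simp only [e, ev]
    push_cast
    linarith
  · have e : cross (P 5) (P 0) = (-3938, 1727, 140) := by decide +kernel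
    simp only [e, ev]
    push_cast
    linarith

theorem face9 {x y z : ℝ} (h1 : 0 ≤ 2051 * x - 880 * y - 58 * z)
    (h2 : 0 ≤ -693 * x - 2060 * y + 1434 * z)
    (h3 : 0 ≤ -1214 * x - 220 * y - 3468 * z) :
    ∃ f ∈ faces, InFace f x y z := by
  refine ⟨(9, 2, 6), by decide, ?_, ?_, ?_⟩
  · have e : cross (P 2) (P 6) = (2051, -880, -58) := by decide +kernel
    simp only [e, ev]
    push_cast
    linarith
  · have e : cross (P 6) (P 9) = (-693, -2060, 1434) := by decide +kernel
    simp only [e, ev]
    push_cast
    linarith
  · have e : cross (P 9) (P 2) = (-1214, -220, -3468) := by decide +kernel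
    simp only [e, ev]
    push_cast
    linarith

theorem face10 {x y z : ℝ} (h1 : 0 ≤ 1664 * x - 1338 * y - 382 * z)
    (h2 : 0 ≤ -440 * x + 1010 * y - 3180 * z)
    (h3 : 0 ≤ 1501 * x + 1828 * y + 1542 * z) :
    ∃ f ∈ faces, InFace f x y z := by
  refine ⟨(9, 10, 1), by decide, ?_, ?_, ?_⟩
  · have e : cross (P 10) (P 1) = (1664, -1338, -382) := by decide +kernel
    simp only [e, ev]
    push_cast
    linarith
  · have e : cross (P 1) (P 9) = (-440, 1010, -3180) := by decide +kernel
    simp only [e, ev]
    push_cast
    linarith
  · have e : cross (P 9) (P 10) = (1501, 1828, 1542) := by decide +kernel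
    simp only [e, ev]
    push_cast
    linarith

theorem face11 {x y z : ℝ} (h1 : 0 ≤ -1424 * x + 864 * y + 1732 * z)
    (h2 : 0 ≤ 2088 * x - 2320 * y + 2726 * z)
    (h3 : 0 ≤ 2328 * x + 2800 * y - 462 * z) :
    ∃ f ∈ faces, InFace f x y z := by
  refine ⟨(3, 7, 1), by decide, ?_, ?_, ?_⟩
  · have e : cross (P 7) (P 1) = (-1424, 864, 1732) := by decide +kernel
    simp only [e, ev]
    push_cast
    linarith
  · have e : cross (P 1) (P 3) = (2088, -2320, 2726) := by decide +kernel
    simp only [e, ev]
    push_cast
    linarith
  · have e : cross (P 3) (P 7) = (2328, 2800, -462) := by decide +kernel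
    simp only [e, ev]
    push_cast
    linarith

theorem face12 {x y z : ℝ} (h1 : 0 ≤ -1266 * x - 2204 * y - 132 * z)
    (h2 : 0 ≤ 1466 * x - 1012 * y - 1852 * z)
    (h3 : 0 ≤ 1214 * x + 220 * y + 3468 * z) :
    ∃ f ∈ faces, InFace f x y z := by
  refine ⟨(2, 9, 7), by decide, ?_, ?_, ?_⟩
  · have e : cross (P 9) (P 7) = (-1266, -2204, -132) := by decide +kernel
    simp only [e, ev]
    push_cast
    linarith
  · have e : cross (P 7) (P 2) = (1466, -1012, -1852) := by decide +kernel
    simp only [e, ev]
    push_cast
    linarith
  · have e : cross (P 2) (P 9) = (1214, 220, 3468) := by decide +kernel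
    simp only [e, ev]
    push_cast
    linarith

theorem face13 {x y z : ℝ} (h1 : 0 ≤ -429 * x - 2785 * y + 1560 * z)
    (h2 : 0 ≤ -506 * x + 1529 * y + 1840 * z)
    (h3 : 0 ≤ -4047 * x - 15 * y - 2351 * z) :
    ∃ f ∈ faces, InFace f x y z := by
  refine ⟨(0, 3, 8), by decide, ?_, ?_, ?_⟩
  · have e : cross (P 3) (P 8) = (-429, -2785, 1560) := by decide +kernel
    simp only [e, ev]
    push_cast
    linarith
  · have e : cross (P 8) (P 0) = (-506, 1529, 1840) := by decide +kernel
    simp only [e, ev]
    push_cast
    linarith
  · have e : cross (P 0) (P 3) = (-4047, -15, -2351) := by decide +kernel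
    simp only [e, ev]
    push_cast
    linarith

theorem face14 {x y z : ℝ} (h1 : 0 ≤ 1902 * x + 2270 * y - 366 * z)
    (h2 : 0 ≤ 1236 * x + 1496 * y - 240 * z)
    (h3 : 0 ≤ -2328 * x - 2800 * y + 462 * z) :
    ∃ f ∈ faces, InFace f x y z := by
  refine ⟨(7, 3, 11), by decide, ?_, ?_, ?_⟩
  · have e : cross (P 3) (P 11) = (1902, 2270, -366) := by decide +kernel
    simp only [e, ev]
    push_cast
    linarith
  · have e : cross (P 11) (P 7) = (1236, 1496, -240) := by decide +kernel
    simp only [e, ev]
    push_cast
    linarith
  · have e : cross (P 7) (P 3) = (-2328, -2800, 462) := by decide +kernel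
    simp only [e, ev]
    push_cast
    linarith

theorem face15 {x y z : ℝ} (h1 : 0 ≤ -64 * x - 524 * y + 2892 * z)
    (h2 : 0 ≤ 2046 * x + 2190 * y - 230 * z)
    (h3 : 0 ≤ -2088 * x + 2320 * y - 2726 * z) :
    ∃ f ∈ faces, InFace f x y z := by
  refine ⟨(3, 1, 4), by decide, ?_, ?_, ?_⟩
  · have e : cross (P 1) (P 4) = (-64, -524, 2892) := by decide +kernel
    simp only [e, ev]
    push_cast
    linarith
  · have e : cross (P 4) (P 3) = (2046, 2190, -230) := by decide +kernel
    simp only [e, ev]
    push_cast
    linarith
  · have e : cross (P 3) (P 1) = (-2088, 2320, -2726) := by decide +kernel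
    simp only [e, ev]
    push_cast
    linarith

theorem face16 {x y z : ℝ} (h1 : 0 ≤ 1210 * x - 517 * y - 24 * z)
    (h2 : 0 ≤ -3082 * x + 1320 * y + 76 * z)
    (h3 : 0 ≤ 2866 * x - 1234 * y - 70 * z) :
    ∃ f ∈ faces, InFace f x y z := by
  refine ⟨(11, 0, 2), by decide, ?_, ?_, ?_⟩
  · have e : cross (P 0) (P 2) = (1210, -517, -24) := by decide +kernel
    simp only [e, ev]
    push_cast
    linarith
  · have e : cross (P 2) (P 11) = (-3082, 1320, 76) := by decide +kernel
    simp only [e, ev]
    push_cast
    linarith
  · have e : cross (P 11) (P 0) = (2866, -1234, -70) := by decide +kernel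
    simp only [e, ev]
    push_cast
    linarith

theorem face17 {x y z : ℝ} (h1 : 0 ≤ 693 * x + 2060 * y - 1434 * z)
    (h2 : 0 ≤ 1582 * x - 720 * y - 20 * z)
    (h3 : 0 ≤ -1501 * x - 1828 * y - 1542 * z) :
    ∃ f ∈ faces, InFace f x y z := by
  refine ⟨(10, 9, 6), by decide, ?_, ?_, ?_⟩
  · have e : cross (P 9) (P 6) = (693, 2060, -1434) := by decide +kernel
    simp only [e, ev]
    push_cast
    linarith
  · have e : cross (P 6) (P 10) = (1582, -720, -20) := by decide +kernel
    simp only [e, ev]
    push_cast
    linarith
  · have e : cross (P 10) (P 9) = (-1501, -1828, -1542) := by decide +kernel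
    simp only [e, ev]
    push_cast
    linarith

theorem face18 {x y z : ℝ} (h1 : 0 ≤ -3158 * x + 1439 * y + 41 * z)
    (h2 : 0 ≤ 638 * x + 1463 * y - 2320 * z)
    (h3 : 0 ≤ 253 * x - 1590 * y - 920 * z) :
    ∃ f ∈ faces, InFace f x y z := by
  refine ⟨(8, 10, 5), by decide, ?_, ?_, ?_⟩
  · have e : cross (P 10) (P 5) = (-3158, 1439, 41) := by decide +kernel
    simp only [e, ev]
    push_cast
    linarith
  · have e : cross (P 5) (P 8) = (638, 1463, -2320) := by decide +kernel
    simp only [e, ev]
    push_cast
    linarith
  · have e : cross (P 8) (P 10) = (253, -1590, -920) := by decide +kernel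
    simp only [e, ev]
    push_cast
    linarith

theorem face19 {x y z : ℝ} (h1 : 0 ≤ 440 * x - 1010 * y + 3180 * z)
    (h2 : 0 ≤ 1424 * x - 864 * y - 1732 * z)
    (h3 : 0 ≤ 1266 * x + 2204 * y + 132 * z) :
    ∃ f ∈ faces, InFace f x y z := by
  refine ⟨(7, 9, 1), by decide, ?_, ?_, ?_⟩
  · have e : cross (P 9) (P 1) = (440, -1010, 3180) := by decide +kernel
    simp only [e, ev]
    push_cast
    linarith
  · have e : cross (P 1) (P 7) = (1424, -864, -1732) := by decide +kernel
    simp only [e, ev]
    push_cast
    linarith
  · have e : cross (P 7) (P 9) = (1266, 2204, 132) := by decide +kernel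
    simp only [e, ev]
    push_cast
    linarith

theorem cover (x y z : ℝ) : ∃ f ∈ faces, InFace f x y z := by
  rcases le_total 0 (506 * x - 1529 * y - 1840 * z) with h0 | h0
  · rcases le_total 0 (3158 * x - 1439 * y - 41 * z) with h1 | h1
    · rcases le_total 0 (2303 * x - 995 * y - 61 * z) with h2 | h2
      · rcases le_total 0 (-693 * x - 2060 * y + 1434 * z) with h3 | h3
        · rcases le_total 0 (633 * x + 1102 * y + 66 * z) with h4 | h4
          · exact face19 (by linarith) (by linarith) (by linarith)
          · rcases le_total 0 (2051 * x - 880 * y - 58 * z) with h5 | h5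
            · rcases le_total 0 (-733 * x + 506 * y + 926 * z) with h6 | h6
              · exact face7 (by linarith) (by linarith) (by linarith)
              · rcases le_total 0 (607 * x + 110 * y + 1734 * z) with h7 | h7
                · exact face12 (by linarith) (by linarith) (by linarith)
                · exact face9 (by linarith) (by linarith) (by linarith)
            · rcases le_total 0 (1210 * x - 517 * y - 24 * z) with h6 | h6
              · rcases le_total 0 (-1541 * x + 660 * y + 38 * z) with h7 | h7
                · exact face16 (by linarith) (by linarith) (by linarith)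
                · exact face7 (by linarith) (by linarith) (by linarith)
              · exact face4 (by linarith) (by linarith) (by linarith)
        · rcases le_total 0 (1501 * x + 1828 * y + 1542 * z) with h4 | h4
          · rcases le_total 0 (-44 * x + 101 * y - 318 * z) with h5 | h5
            · rcases le_total 0 (-832 * x + 669 * y + 191 * z) with h6 | h6
              · exact face6 (by linarith) (by linarith) (by linarith)
              · exact face10 (by linarith) (by linarith) (by linarith)
            · exact face19 (by linarith) (by linarith) (by linarith)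
          · rcases le_total 0 (791 * x - 360 * y - 10 * z) with h5 | h5
            · exact face17 (by linarith) (by linarith) (by linarith)
            · exact face0 (by linarith) (by linarith) (by linarith)
      · rcases le_total 0 (3938 * x - 1727 * y - 140 * z) with h3 | h3
        · rcases le_total 0 (1106 * x - 505 * y - 13 * z) with h4 | h4
          · exact face1 (by linarith) (by linarith) (by linarith)
          · exact face0 (by linarith) (by linarith) (by linarith)
        · exact face8 (by linarith) (by linarith) (by linarith)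
    · rcases le_total 0 (253 * x - 1590 * y - 920 * z) with h2 | h2
      · rcases le_total 0 (638 * x + 1463 * y - 2320 * z) with h3 | h3
        · exact face18 (by linarith) (by linarith) (by linarith)
        · exact face8 (by linarith) (by linarith) (by linarith)
      · rcases le_total 0 (-386 * x - 355 * y - 325 * z) with h3 | h3
        · exact face3 (by linarith) (by linarith) (by linarith)
        · exact face6 (by linarith) (by linarith) (by linarith)
  · rcases le_total 0 (36 * x - 40 * y + 47 * z) with h1 | h1
    · rcases le_total 0 (1164 * x + 1400 * y - 231 * z) with h2 | h2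
      · rcases le_total 0 (356 * x - 216 * y - 433 * z) with h3 | h3
        · rcases le_total 0 (-44 * x + 101 * y - 318 * z) with h4 | h4
          · exact face10 (by linarith) (by linarith) (by linarith)
          · rcases le_total 0 (633 * x + 1102 * y + 66 * z) with h5 | h5
            · exact face19 (by linarith) (by linarith) (by linarith)
            · exact face12 (by linarith) (by linarith) (by linarith)
        · exact face11 (by linarith) (by linarith) (by linarith)
      · rcases le_total 0 (-4047 * x - 15 * y - 2351 * z) with h3 | h3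
        · exact face13 (by linarith) (by linarith) (by linarith)
        · rcases le_total 0 (-733 * x + 506 * y + 926 * z) with h4 | h4
          · rcases le_total 0 (-1433 * x + 617 * y + 35 * z) with h5 | h5
            · rcases le_total 0 (951 * x + 1135 * y - 183 * z) with h6 | h6
              · exact face14 (by linarith) (by linarith) (by linarith)
              · exact face5 (by linarith) (by linarith) (by linarith)
            · rcases le_total 0 (-1541 * x + 660 * y + 38 * z) with h6 | h6
              · exact face16 (by linarith) (by linarith) (by linarith)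
              · rcases le_total 0 (-309 * x - 374 * y + 60 * z) with h7 | h7
                · exact face7 (by linarith) (by linarith) (by linarith)
                · exact face14 (by linarith) (by linarith) (by linarith)
          · exact face12 (by linarith) (by linarith) (by linarith)
    · rcases le_total 0 (-832 * x + 669 * y + 191 * z) with h2 | h2
      · rcases le_total 0 (-429 * x - 2785 * y + 1560 * z) with h3 | h3
        · exact face13 (by linarith) (by linarith) (by linarith)
        · rcases le_total 0 (-16 * x - 131 * y + 723 * z) with h4 | h4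
          · rcases le_total 0 (-1023 * x - 1095 * y + 115 * z) with h5 | h5
            · exact face2 (by linarith) (by linarith) (by linarith)
            · exact face15 (by linarith) (by linarith) (by linarith)
          · rcases le_total 0 (-209 * x - 340 * y + 760 * z) with h5 | h5
            · exact face2 (by linarith) (by linarith) (by linarith)
            · rcases le_total 0 (-386 * x - 355 * y - 325 * z) with h6 | h6
              · exact face3 (by linarith) (by linarith) (by linarith)
              · exact face6 (by linarith) (by linarith) (by linarith)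
      · exact face10 (by linarith) (by linarith) (by linarith)

end Pool.Agent.V11122.Sink
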