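import Mathlib

set_option autoImplicit false

/-! Integer data of a 12-vertex triangulation of the sphere. -/

namespace Pool.Agent.V11122.Sink

abbrev Z3 := ℤ × ℤ × ℤ

def dot (a b : Z3) : ℤ := a.1 * b.1 + a.2.1 * b.2.1 + a.2.2 * b.2.2

def cross (a b : Z3) : Z3 :=
  (a.2.1 * b.2.2 - a.2.2 * b.2.1, a.2.2 * b.1 - a.1 * b.2.2, a.1 * b.2.1 - a.2.1 * b.1)

def neg (a : Z3) : Z3 := (-a.1, -a.2.1, -a.2.2)

def add (a b : Z3) : Z3 := (a.1 + b.1, a.2.1 + b.2.1, a.2.2 + b.2.2)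

def det (a b c : Z3) : ℤ := dot (cross a b) c

/-- The (integer) directions of the twelve vertices. -/
def P : Fin 12 → Z3 := ![(-19, -46, 33), (34, 40, 8), (-22, -52, 11), (-35, 39, 60), (-40, 38, 6), (-27, -58, -44), (-10, -21, -35), (28, -18, 32), (-40, 0, -11), (54, -30, -17), (10, 23, -37), (4, 6, 58)]

/-- The edges. -/
def edges : List (Fin 12 × Fin 12) := [(0, 2), (0, 3), (0, 5), (0, 6), (0, 8), (0, 11), (1, 3), (1, 4), (1, 7), (1, 9), (1, 10), (2, 6), (2, 7), (2, 9), (2, 11), (3, 4), (3, 7), (3, 8), (3, 11), (4, 8), (4, 10), (5, 6), (5, 8), (5, 10), (6, 9), (6, 10), (7, 9), (7, 11), (8, 10), (9, 10)]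

/-- The faces. -/
def faces : List (Fin 12 × Fin 12 × Fin 12) := [(10, 6, 5), (6, 0, 5), (8, 3, 4), (10, 8, 4), (0, 6, 2), (3, 0, 11), (4, 1, 10), (7, 11, 2), (5, 0, 8), (9, 2, 6), (9, 10, 1), (3, 7, 1), (2, 9, 7), (0, 3, 8), (7, 3, 11), (3, 1, 4), (11, 0, 2), (10, 9, 6), (8, 10, 5), (7, 9, 1)]

def adjB (a b : Fin 12) : Bool := edges.contains (a, b) || edges.contains (b, a)

/-- The graph. -/
def G : SimpleGraph (Fin 12) where
  Adj a b := adjB a b = true
  symm := by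
    constructor
    decide +kernel
  loopless := by
    constructor
    decide +kernel

instance : DecidableRel G.Adj := fun a b => inferInstanceAs (Decidable (adjB a b = true))

/-- sum of the valid candidates -/
def comb (ok : Z3 → Bool) (l : List Z3) : Z3 :=
  l.foldl (fun s n => if ok n then add s n else if ok (neg n) then add s (neg n) else s) (0, 0, 0)

/-- separating vector for two disjoint edges -/
def sepEE (a b c d : Z3) : Z3 :=
  comb (fun n => decide (0 ≤ dot n a) && decide (0 ≤ dot n b) && decide (dot n c ≤ 0) &&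
    decide (dot n d ≤ 0)) [cross a b, cross c d, cross a c, cross a d, cross b c, cross b d]

/-- separating vector for a face and an edge -/
def sepFE (a b c d e : Z3) : Z3 :=
  comb (fun n => decide (0 ≤ dot n a) && decide (0 ≤ dot n b) && decide (0 ≤ dot n c) &&
    decide (dot n d ≤ 0) && decide (dot n e ≤ 0))
    [cross a b, cross a c, cross b c, cross d e, cross a d, cross a e, cross b d, cross b e,
      cross c d, cross c e]

theorem check_adj : ∀ e ∈ edges, ∀ a b : Fin 12, (e = (a, b) ∨ e = (b, a)) → G.Adj a b := by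
  decide +kernel

theorem check_pos : ∀ v : Fin 12, 0 < dot (P v) (P v) := by decide +kernel

theorem check_par : ∀ v w : Fin 12, v ≠ w → cross (P v) (P w) ≠ (0, 0, 0) := by decide +kernel

theorem check_dot : ∀ v w : Fin 12, G.Adj v w → 0 < dot (P v) (P w) := by decide +kernel

theorem check_ve : ∀ u v w : Fin 12, G.Adj v w → u ≠ v → u ≠ w →
    det (P v) (P w) (P u) ≠ 0 := by decide +kernel

theorem check_ee : ∀ e ∈ edges, ∀ f ∈ edges, e.1 ≠ f.1 → e.1 ≠ f.2 → e.2 ≠ f.1 → e.2 ≠ f.2 →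
    (0 < dot (sepEE (P e.1) (P e.2) (P f.1) (P f.2)) (P e.1) ∧
    0 < dot (sepEE (P e.1) (P e.2) (P f.1) (P f.2)) (P e.2) ∧
    dot (sepEE (P e.1) (P e.2) (P f.1) (P f.2)) (P f.1) < 0 ∧
    dot (sepEE (P e.1) (P e.2) (P f.1) (P f.2)) (P f.2) < 0) := by decide +kernel

theorem check_face : ∀ f ∈ faces, G.Adj f.1 f.2.1 ∧ G.Adj f.2.1 f.2.2 ∧ G.Adj f.2.2 f.1 ∧
    0 < det (P f.1) (P f.2.1) (P f.2.2) := by decide +kernel

theorem check_fe : ∀ f ∈ faces, ∀ e ∈ edges,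
    (0 ≤ dot (sepFE (P f.1) (P f.2.1) (P f.2.2) (P e.1) (P e.2)) (P f.1) ∧
    0 ≤ dot (sepFE (P f.1) (P f.2.1) (P f.2.2) (P e.1) (P e.2)) (P f.2.1) ∧
    0 ≤ dot (sepFE (P f.1) (P f.2.1) (P f.2.2) (P e.1) (P e.2)) (P f.2.2) ∧
    0 < dot (sepFE (P f.1) (P f.2.1) (P f.2.2) (P e.1) (P e.2)) (P f.1) +
      dot (sepFE (P f.1) (P f.2.1) (P f.2.2) (P e.1) (P e.2)) (P f.2.1) +
      dot (sepFE (P f.1) (P f.2.1) (P f.2.2) (P e.1) (P e.2)) (P f.2.2) ∧
    dot (sepFE (P f.1) (P f.2.1) (P f.2.2) (P e.1) (P e.2)) (P e.1) ≤ 0 ∧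
    dot (sepFE (P f.1) (P f.2.1) (P f.2.2) (P e.1) (P e.2)) (P e.2) ≤ 0) := by decide +kernel

theorem check_pole : ∀ v w : Fin 12, G.Adj v w → (cross (P v) (P w)).2.2 ≠ 0 := by
  decide +kernel

theorem check_deg : ∀ v : Fin 12, ∃ w, G.Adj v w := by decide +kernel

theorem adj_edges : ∀ a b : Fin 12, G.Adj a b → (a, b) ∈ edges ∨ (b, a) ∈ edges := by
  decide +kernel

theorem card_edges : G.edgeSet.ncard = 30 := by
  have h := SimpleGraph.sum_degrees_eq_twice_card_edges G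
  have h2 : ∑ v, G.degree v = 60 := by decide +kernel
  rw [← SimpleGraph.coe_edgeFinset, Set.ncard_coe_finset]
  omega

end Pool.Agent.V11122.Sink
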