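import Mathlib

set_option autoImplicit false

/-! Shortest-path drawings of graphs on the unit sphere, shortest-path triangulations, longitudinal
morphs and sinkability. -/

namespace Pool.Agent.V11122.Sink

/-- Euclidean three-space; the sphere is `{x : E3 | ‖x‖ = 1}`. -/
abbrev E3 := EuclideanSpace ℝ (Fin 3)

/-- The unit sphere. -/
def sphere : Set E3 := {x | ‖x‖ = 1}

/-- The north pole `(0,0,1)`. -/
noncomputable def north : E3 := !₂[(0 : ℝ), 0, 1]

/-- For unit vectors `x`, `y` with `x ≠ -y`: the (unique) shortest great-circle arc from `x`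
to `y`, i.e. all unit vectors which are nonnegative combinations of `x` and `y`. -/
def arc (x y : E3) : Set E3 := {z | ‖z‖ = 1 ∧ ∃ s t : ℝ, 0 ≤ s ∧ 0 ≤ t ∧ z = s • x + t • y}

/-- The open spherical triangle with corners `x`, `y`, `z`: all unit vectors which are positive
combinations of `x`, `y`, `z`. -/
def openTriangle (x y z : E3) : Set E3 :=
  {w | ‖w‖ = 1 ∧ ∃ r s t : ℝ, 0 < r ∧ 0 < s ∧ 0 < t ∧ w = r • x + s • y + t • z}

/-- The union of the points and edges of the drawing of `G` with vertex positions `p`. -/
def drawing {V : Type} (G : SimpleGraph V) (p : V → E3) : Set E3 :=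
  Set.range p ∪ {x | ∃ a b, G.Adj a b ∧ x ∈ arc (p a) (p b)}

/-- `p` is a shortest-path embedding of `G` in the sphere: the vertices are distinct points of the
sphere, every edge is the shortest great-circle arc (of length `< π`) between its endpoints, no
edge contains a vertex other than its endpoints, and distinct edges meet only at common
endpoints. -/
structure IsShortestPathEmbedding {V : Type} (G : SimpleGraph V) (p : V → E3) : Prop where
  unit : ∀ v, ‖p v‖ = 1
  inj : Function.Injective p
  short : ∀ v w, G.Adj v w → p v ≠ -p w
  vertex_edge : ∀ u v w, G.Adj v w → p u ∈ arc (p v) (p w) → u = v ∨ u = w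
  edge_edge : ∀ a b c d, G.Adj a b → G.Adj c d → s(a, b) ≠ s(c, d) →
    ∀ x, x ∈ arc (p a) (p b) → x ∈ arc (p c) (p d) →
      ∃ v, (v = a ∨ v = b) ∧ (v = c ∨ v = d) ∧ x = p v

/-- `p` is a shortest-path triangulation of the sphere with underlying graph `G`: `p` is a
shortest-path embedding of `G`, every face (connected component of the complement of the drawing)
is an open spherical triangle spanned by three pairwise adjacent vertices, and `G`, being planar,
is maximal planar: it has `3 |V| - 6` edges. -/
structure IsShortestPathTriangulation {V : Type} [Fintype V] (G : SimpleGraph V) (p : V → E3) :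
    Prop extends IsShortestPathEmbedding G p where
  face : ∀ x ∈ sphere \ drawing G p, ∃ a b c, G.Adj a b ∧ G.Adj b c ∧ G.Adj c a ∧
    connectedComponentIn (sphere \ drawing G p) x = openTriangle (p a) (p b) (p c)
  card_vert : 3 ≤ Fintype.card V
  card_edge : G.edgeSet.ncard + 6 = 3 * Fintype.card V

/-- The longitude of a point `q` which is not a pole: the open half great circle from the north
pole to the south pole through `q`. -/
def longitude (q : E3) : Set E3 := {x | ‖x‖ = 1 ∧ ∃ c : ℝ, 0 < c ∧ x 0 = c * q 0 ∧ x 1 = c * q 1}

/-- `p` is sinkable: there is a continuous family `Γ t`, `t ∈ [0,1]`, of shortest-path embeddings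
of `G` with `Γ 0 = p`, such that every vertex stays on its own longitude, and such that in `Γ 1`
all vertices lie in the open southern hemisphere. -/
def Sinkable {V : Type} (G : SimpleGraph V) (p : V → E3) : Prop :=
  ∃ Γ : unitInterval → V → E3, Continuous Γ ∧ Γ 0 = p ∧
    (∀ t, IsShortestPathEmbedding G (Γ t)) ∧ (∀ t v, Γ t v ∈ longitude (p v)) ∧
    ∀ v, Γ 1 v 2 < 0

end Pool.Agent.V11122.Sink
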