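import Pool.Agent.V11122.Sink.Defs
import Pool.Agent.V11122.Sink.Cover

set_option autoImplicit false

/-! The integer data define a shortest-path triangulation. -/

namespace Pool.Agent.V11122.Sink

/-- the real vector of an integer vector -/
noncomputable def v3 (a : Z3) : E3 := !₂[(a.1 : ℝ), (a.2.1 : ℝ), (a.2.2 : ℝ)]

/-- the linear functional of an integer vector -/
def evv (n : Z3) (x : E3) : ℝ := ev n (x 0) (x 1) (x 2)

theorem evv_add (n : Z3) (x y : E3) : evv n (x + y) = evv n x + evv n y := by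
  simp only [evv, ev, PiLp.add_apply]; ring

theorem evv_smul (n : Z3) (s : ℝ) (x : E3) : evv n (s • x) = s * evv n x := by
  simp only [evv, ev, PiLp.smul_apply, smul_eq_mul]; ring

theorem evv_neg (n : Z3) (x : E3) : evv n (-x) = -evv n x := by
  simp only [evv, ev, PiLp.neg_apply]; ring

theorem evv_v3 (n a : Z3) : evv n (v3 a) = ((dot n a : ℤ) : ℝ) := by
  simp [evv, ev, v3, dot]

theorem evv_zero (n : Z3) : evv n 0 = 0 := by
  simp [evv, ev]

theorem continuous_evv (n : Z3) : Continuous (evv n) := by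
  unfold evv ev
  fun_prop

theorem cramer (a b c : Z3) (x : E3) : ((det a b c : ℤ) : ℝ) • x =
    evv (cross b c) x • v3 a + evv (cross c a) x • v3 b + evv (cross a b) x • v3 c := by
  ext i
  fin_cases i <;> simp [evv, ev, v3, cross, det, dot] <;> ring

theorem norm_pos (v : Fin 12) : 0 < ‖v3 (P v)‖ := by
  rw [norm_pos_iff]
  intro h
  have h1 := evv_v3 (P v) (P v)
  rw [h, evv_zero] at h1
  have h2 := check_pos v
  have h3 : (0 : ℝ) < ((dot (P v) (P v) : ℤ) : ℝ) := by exact_mod_cast h2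
  linarith

/-- vertex positions -/
noncomputable def p (v : Fin 12) : E3 := ‖v3 (P v)‖⁻¹ • v3 (P v)

theorem r_pos (v : Fin 12) : 0 < ‖v3 (P v)‖⁻¹ := inv_pos.2 (norm_pos v)

theorem evv_p (n : Z3) (v : Fin 12) : evv n (p v) = ‖v3 (P v)‖⁻¹ * ((dot n (P v) : ℤ) : ℝ) := by
  rw [p, evv_smul, evv_v3]

theorem evv_p_pos {n : Z3} {v : Fin 12} (h : 0 < dot n (P v)) : 0 < evv n (p v) := by
  rw [evv_p]; exact mul_pos (r_pos v) (by exact_mod_cast h)

theorem evv_p_nonneg {n : Z3} {v : Fin 12} (h : 0 ≤ dot n (P v)) : 0 ≤ evv n (p v) := by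
  rw [evv_p]; exact mul_nonneg (r_pos v).le (by exact_mod_cast h)

theorem evv_p_neg {n : Z3} {v : Fin 12} (h : dot n (P v) < 0) : evv n (p v) < 0 := by
  rw [evv_p]; exact mul_neg_of_pos_of_neg (r_pos v) (by exact_mod_cast h)

theorem evv_p_nonpos {n : Z3} {v : Fin 12} (h : dot n (P v) ≤ 0) : evv n (p v) ≤ 0 := by
  rw [evv_p]; exact mul_nonpos_of_nonneg_of_nonpos (r_pos v).le (by exact_mod_cast h)

theorem evv_p_ne {n : Z3} {v : Fin 12} (h : dot n (P v) ≠ 0) : evv n (p v) ≠ 0 := by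
  rw [evv_p]; exact mul_ne_zero (r_pos v).ne' (by exact_mod_cast h)

theorem evv_p_zero {n : Z3} {v : Fin 12} (h : dot n (P v) = 0) : evv n (p v) = 0 := by
  rw [evv_p, h]; simp

theorem norm_p (v : Fin 12) : ‖p v‖ = 1 := by
  rw [p, norm_smul, norm_inv, norm_norm, inv_mul_cancel₀ (norm_pos v).ne']

theorem arc_comm (x y : E3) : arc x y = arc y x := by
  ext z
  constructor
  · rintro ⟨h, s, t, hs, ht, e⟩
    exact ⟨h, t, s, ht, hs, by rw [e, add_comm]⟩
  · rintro ⟨h, s, t, hs, ht, e⟩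
    exact ⟨h, t, s, ht, hs, by rw [e, add_comm]⟩

theorem check_sep : ∀ v w : Fin 12, v ≠ w →
    dot (cross (cross (P v) (P w)) (P w)) (P w) = 0 ∧
    dot (cross (cross (P v) (P w)) (P w)) (P v) ≠ 0 := by decide +kernel

theorem dot_cross_left (a b : Z3) : dot (cross a b) a = 0 := by
  simp only [dot, cross]; ring

theorem dot_cross_right (a b : Z3) : dot (cross a b) b = 0 := by
  simp only [dot, cross]; ring

theorem p_ne {v w : Fin 12} (h : v ≠ w) : p v ≠ p w := by
  intro e
  obtain ⟨h1, h2⟩ := check_sep v w h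
  apply evv_p_ne h2
  rw [e]
  exact evv_p_zero h1

theorem p_ne_neg {v w : Fin 12} (h : v ≠ w) : p v ≠ -p w := by
  intro e
  obtain ⟨h1, h2⟩ := check_sep v w h
  apply evv_p_ne h2
  rw [e, evv_neg, evv_p_zero h1, neg_zero]

theorem adj_ne {v w : Fin 12} (h : G.Adj v w) : v ≠ w := h.ne

theorem share {a b d : Fin 12} (hab : G.Adj a b) (hda : d ≠ a) (hdb : d ≠ b) {x : E3}
    (h1 : x ∈ arc (p a) (p b)) (h2 : x ∈ arc (p a) (p d)) : x = p a := by
  obtain ⟨hx, s, t, hs, ht, e⟩ := h1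
  obtain ⟨-, s', t', hs', ht', e'⟩ := h2
  have h0 := check_ve d a b hab hda hdb
  have e1 : evv (cross (P a) (P b)) x = 0 := by
    rw [e, evv_add, evv_smul, evv_smul, evv_p_zero (dot_cross_left _ _),
      evv_p_zero (dot_cross_right _ _)]
    ring
  have e2 : evv (cross (P a) (P b)) x = t' * evv (cross (P a) (P b)) (p d) := by
    rw [e', evv_add, evv_smul, evv_smul, evv_p_zero (dot_cross_left _ _)]
    ring
  have e3 : evv (cross (P a) (P b)) (p d) ≠ 0 := evv_p_ne h0
  have e4 : t' = 0 := by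
    rcases mul_eq_zero.1 (e2.symm.trans e1) with h | h
    · exact h
    · exact absurd h e3
  rw [e4, zero_smul, add_zero] at e'
  have e5 : s' = 1 := by
    rw [e', norm_smul, norm_p, mul_one, Real.norm_eq_abs, abs_of_nonneg hs'] at hx
    exact hx
  rw [e', e5, one_smul]

theorem disj {g f : Fin 12 × Fin 12} (hg : g ∈ edges) (hf : f ∈ edges) (h1 : g.1 ≠ f.1)
    (h2 : g.1 ≠ f.2) (h3 : g.2 ≠ f.1) (h4 : g.2 ≠ f.2) {x : E3}
    (hx : x ∈ arc (p g.1) (p g.2)) (hx' : x ∈ arc (p f.1) (p f.2)) : False := by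
  obtain ⟨hn, s, t, hs, ht, e⟩ := hx
  obtain ⟨-, s', t', hs', ht', e'⟩ := hx'
  obtain ⟨k1, k2, k3, k4⟩ := check_ee _ hg _ hf h1 h2 h3 h4
  set n := sepEE (P g.1) (P g.2) (P f.1) (P f.2)
  have a1 := evv_p_pos k1
  have a2 := evv_p_pos k2
  have a3 := evv_p_neg k3
  have a4 := evv_p_neg k4
  have b1 : evv n x = s * evv n (p g.1) + t * evv n (p g.2) := by
    rw [e, evv_add, evv_smul, evv_smul]
  have b2 : evv n x = s' * evv n (p f.1) + t' * evv n (p f.2) := by
    rw [e', evv_add, evv_smul, evv_smul]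
  have c1 := mul_nonneg hs a1.le
  have c2 := mul_nonneg ht a2.le
  have c3 := mul_nonneg hs' (neg_nonneg.2 a3.le)
  have c4 := mul_nonneg ht' (neg_nonneg.2 a4.le)
  have d1 : s * evv n (p g.1) = 0 := by nlinarith
  have d2 : t * evv n (p g.2) = 0 := by nlinarith
  have s0 : s = 0 := (mul_eq_zero.1 d1).resolve_right a1.ne'
  have t0 : t = 0 := (mul_eq_zero.1 d2).resolve_right a2.ne'
  rw [e, s0, t0] at hn
  simp at hn

theorem embedding : IsShortestPathEmbedding G p where
  unit := norm_p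
  inj := by
    intro v w h
    by_contra hne
    exact p_ne hne h
  short v w h := p_ne_neg h.ne
  vertex_edge := by
    rintro u v w hvw ⟨-, s, t, -, -, e⟩
    by_contra hc
    push Not at hc
    have h0 := check_ve u v w hvw hc.1 hc.2
    apply evv_p_ne (n := cross (P v) (P w)) (v := u) h0
    rw [e, evv_add, evv_smul, evv_smul, evv_p_zero (dot_cross_left _ _),
      evv_p_zero (dot_cross_right _ _)]
    ring
  edge_edge := by
    intro a b c d hab hcd hne x hx hx'
    by_cases h1 : a = c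
    · subst h1
      have hbd : d ≠ b := by rintro rfl; exact hne rfl
      exact ⟨a, Or.inl rfl, Or.inl rfl, share hab hcd.ne' hbd hx hx'⟩
    by_cases h2 : a = d
    · subst h2
      have hbd : c ≠ b := by rintro rfl; exact hne Sym2.eq_swap
      rw [arc_comm (p c)] at hx'
      exact ⟨a, Or.inl rfl, Or.inr rfl, share hab hcd.ne hbd hx hx'⟩
    by_cases h3 : b = c
    · subst h3
      have hbd : d ≠ a := fun h => h2 h.symm
      rw [arc_comm (p a)] at hx
      exact ⟨b, Or.inr rfl, Or.inl rfl, share hab.symm hcd.ne' hbd hx hx'⟩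
    by_cases h4 : b = d
    · subst h4
      have hbd : c ≠ a := fun h => h1 h.symm
      rw [arc_comm (p a)] at hx
      rw [arc_comm (p c)] at hx'
      exact ⟨b, Or.inr rfl, Or.inr rfl, share hab.symm hcd.ne hbd hx hx'⟩
    exfalso
    rcases adj_edges a b hab with h5 | h5 <;> rcases adj_edges c d hcd with h6 | h6
    · exact disj h5 h6 h1 h2 h3 h4 hx hx'
    · rw [arc_comm (p c)] at hx'
      exact disj h5 h6 h2 h1 h4 h3 hx hx'
    · rw [arc_comm (p a)] at hx
      exact disj h5 h6 h3 h4 h1 h2 hx hx'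
    · rw [arc_comm (p a)] at hx
      rw [arc_comm (p c)] at hx'
      exact disj h5 h6 h4 h3 h2 h1 hx hx'

/-- points with the first two coordinates zero are not on the drawing -/
theorem pole {x : E3} (h0 : x 0 = 0) (h1 : x 1 = 0) : x ∉ drawing G p := by
  have key : ∀ a b, G.Adj a b → x ∉ arc (p a) (p b) := by
    rintro a b hab ⟨hn, s, t, hs, ht, e⟩
    have hc := check_pole a b hab
    have ea : ∀ i, p a i = ‖v3 (P a)‖⁻¹ * v3 (P a) i := fun i => rfl
    have eb : ∀ i, p b i = ‖v3 (P b)‖⁻¹ * v3 (P b) i := fun i => rfl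
    have e0 : s * (‖v3 (P a)‖⁻¹ * (P a).1) + t * (‖v3 (P b)‖⁻¹ * (P b).1) = 0 := by
      have := congrArg (fun y : E3 => y 0) e
      simp only [PiLp.add_apply, PiLp.smul_apply, smul_eq_mul, h0, ea, eb] at this
      simpa [v3] using this.symm
    have e1 : s * (‖v3 (P a)‖⁻¹ * (P a).2.1) + t * (‖v3 (P b)‖⁻¹ * (P b).2.1) = 0 := by
      have := congrArg (fun y : E3 => y 1) e
      simp only [PiLp.add_apply, PiLp.smul_apply, smul_eq_mul, h1, ea, eb] at this
      simpa [v3] using this.symm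
    have hc' : ((P a).1 : ℝ) * (P b).2.1 - (P a).2.1 * (P b).1 ≠ 0 := by
      have : (P a).1 * (P b).2.1 - (P a).2.1 * (P b).1 ≠ 0 := hc
      exact_mod_cast this
    have hra := r_pos a
    have hrb := r_pos b
    have s0 : s = 0 := by
      have : s * ‖v3 (P a)‖⁻¹ * (((P a).1 : ℝ) * (P b).2.1 - (P a).2.1 * (P b).1) = 0 := by
        linear_combination ((P b).2.1 : ℝ) * e0 - ((P b).1 : ℝ) * e1
      rcases mul_eq_zero.1 this with h | h
      · exact (mul_eq_zero.1 h).resolve_right hra.ne'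
      · exact absurd h hc'
    have t0 : t = 0 := by
      have : t * ‖v3 (P b)‖⁻¹ * (((P a).1 : ℝ) * (P b).2.1 - (P a).2.1 * (P b).1) = 0 := by
        linear_combination -((P a).2.1 : ℝ) * e0 + ((P a).1 : ℝ) * e1
      rcases mul_eq_zero.1 this with h | h
      · exact (mul_eq_zero.1 h).resolve_right hrb.ne'
      · exact absurd h hc'
    rw [e, s0, t0] at hn
    simp at hn
  rintro (⟨v, rfl⟩ | ⟨a, b, hab, hx⟩)
  · obtain ⟨w, hw⟩ := check_deg v
    exact key v w hw ⟨norm_p v, 1, 0, zero_le_one, le_rfl, by simp⟩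
  · exact key a b hab hx

theorem angle_lt {v w : Fin 12} (h : G.Adj v w) :
    InnerProductGeometry.angle (p v) (p w) < Real.pi / 2 := by
  have h1 := check_dot v w h
  rw [InnerProductGeometry.angle, Real.arccos_lt_pi_div_two]
  rw [norm_p, norm_p]
  have h2 : inner ℝ (v3 (P v)) (v3 (P w)) = ((dot (P v) (P w) : ℤ) : ℝ) := by
    simp [v3, dot, PiLp.inner_apply, Fin.sum_univ_three]
    ring
  have h3 : (0 : ℝ) < ((dot (P v) (P w) : ℤ) : ℝ) := by exact_mod_cast h1
  rw [p, p, inner_smul_left, inner_smul_right, h2]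
  have h4 := mul_pos (r_pos v) (mul_pos (r_pos w) h3)
  simpa using h4

end Pool.Agent.V11122.Sink
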