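import Pool.Agent.V11122.Sink.Tri

set_option autoImplicit false

/-! The triangulation is not sinkable. -/

namespace Pool.Agent.V11122.Sink

theorem check_xy : ∀ v : Fin 12, 0 < (P v).1 * (P v).1 + (P v).2.1 * (P v).2.1 := by
  decide +kernel

/-- squared distance of `P v` from the axis -/
noncomputable def rr (v : Fin 12) : ℝ := ((P v).1 : ℝ) * (P v).1 + ((P v).2.1 : ℝ) * (P v).2.1

theorem rr_pos (v : Fin 12) : 0 < rr v := by
  have := check_xy v
  unfold rr
  exact_mod_cast this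

/-- height of `x` on the cylinder over the longitude of `p v` -/
noncomputable def hh (v : Fin 12) (x : E3) : ℝ :=
  x 2 * rr v / (((P v).1 : ℝ) * x 0 + ((P v).2.1 : ℝ) * x 1)

theorem p0 (v : Fin 12) : p v 0 = ‖v3 (P v)‖⁻¹ * (P v).1 := rfl
theorem p1 (v : Fin 12) : p v 1 = ‖v3 (P v)‖⁻¹ * (P v).2.1 := rfl
theorem p2 (v : Fin 12) : p v 2 = ‖v3 (P v)‖⁻¹ * (P v).2.2 := rfl

theorem long_spec {v : Fin 12} {x : E3} (hx : x ∈ longitude (p v)) :
    ∃ l : ℝ, 0 < l ∧ x 0 = l * (P v).1 ∧ x 1 = l * (P v).2.1 ∧ x 2 = l * hh v x := by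
  obtain ⟨-, c, hc, h0, h1⟩ := hx
  have hr := r_pos v
  have hl : 0 < c * ‖v3 (P v)‖⁻¹ := mul_pos hc hr
  have e0 : x 0 = (c * ‖v3 (P v)‖⁻¹) * (P v).1 := by rw [h0, p0]; ring
  have e1 : x 1 = (c * ‖v3 (P v)‖⁻¹) * (P v).2.1 := by rw [h1, p1]; ring
  refine ⟨c * ‖v3 (P v)‖⁻¹, hl, e0, e1, ?_⟩
  have hq : ((P v).1 : ℝ) * x 0 + ((P v).2.1 : ℝ) * x 1 = (c * ‖v3 (P v)‖⁻¹) * rr v := by
    rw [e0, e1]; unfold rr; ring
  unfold hh
  rw [hq]
  have hpos := mul_pos hl (rr_pos v)
  rw [mul_div_assoc', eq_div_iff hpos.ne']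
  ring

theorem den_pos {v : Fin 12} {x : E3} (hx : x ∈ longitude (p v)) :
    0 < ((P v).1 : ℝ) * x 0 + ((P v).2.1 : ℝ) * x 1 := by
  obtain ⟨l, hl, h0, h1, -⟩ := long_spec hx
  have := mul_pos hl (rr_pos v)
  have e : ((P v).1 : ℝ) * x 0 + ((P v).2.1 : ℝ) * x 1 = l * rr v := by
    rw [h0, h1]; unfold rr; ring
  rw [e]; exact this

theorem hh_p (v : Fin 12) : hh v (p v) = (P v).2.2 := by
  have hr := r_pos v
  have := rr_pos v
  have hq : ((P v).1 : ℝ) * p v 0 + ((P v).2.1 : ℝ) * p v 1 = ‖v3 (P v)‖⁻¹ * rr v := by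
    rw [p0, p1]; unfold rr; ring
  unfold hh
  rw [hq, p2, div_eq_iff (mul_pos hr this).ne']
  ring

theorem P_0 : P 0 = (-19, -46, 33) := rfl
theorem P_1 : P 1 = (34, 40, 8) := rfl
theorem P_2 : P 2 = (-22, -52, 11) := rfl
theorem P_3 : P 3 = (-35, 39, 60) := rfl
theorem P_4 : P 4 = (-40, 38, 6) := rfl
theorem P_5 : P 5 = (-27, -58, -44) := rfl
theorem P_6 : P 6 = (-10, -21, -35) := rfl
theorem P_7 : P 7 = (28, -18, 32) := rfl
theorem P_8 : P 8 = (-40, 0, -11) := rfl
theorem P_9 : P 9 = (54, -30, -17) := rfl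
theorem P_10 : P 10 = (10, 23, -37) := rfl
theorem P_11 : P 11 = (4, 6, 58) := rfl

theorem never {q : Fin 12 → E3} (hq : IsShortestPathEmbedding G q)
    (hl : ∀ v, q v ∈ longitude (p v)) {l r m : Fin 12} (hlr : G.Adj l r) (hml : m ≠ l)
    (hmr : m ≠ r) {α β : ℝ} (hα : 0 < α) (hβ : 0 < β)
    (e0 : ((P m).1 : ℝ) = α * (P l).1 + β * (P r).1)
    (e1 : ((P m).2.1 : ℝ) = α * (P l).2.1 + β * (P r).2.1) :
    hh m (q m) ≠ α * hh l (q l) + β * hh r (q r) := by
  intro e2
  obtain ⟨a, ha, a0, a1, a2⟩ := long_spec (hl l)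
  obtain ⟨b, hb, b0, b1, b2⟩ := long_spec (hl r)
  obtain ⟨c, hc, c0, c1, c2⟩ := long_spec (hl m)
  have hmem : q m ∈ arc (q l) (q r) := by
    refine ⟨hq.unit m, c * α / a, c * β / b, by positivity, by positivity, ?_⟩
    ext i
    fin_cases i
    · simp only [PiLp.add_apply, PiLp.smul_apply, smul_eq_mul]
      change q m 0 = c * α / a * q l 0 + c * β / b * q r 0
      rw [c0, a0, b0, e0]
      field_simp
    · simp only [PiLp.add_apply, PiLp.smul_apply, smul_eq_mul]
      change q m 1 = c * α / a * q l 1 + c * β / b * q r 1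
      rw [c1, a1, b1, e1]
      field_simp
    · simp only [PiLp.add_apply, PiLp.smul_apply, smul_eq_mul]
      change q m 2 = c * α / a * q l 2 + c * β / b * q r 2
      rw [c2, a2, b2, e2]
      field_simp
  rcases hq.vertex_edge m l r hlr hmem with h | h
  · exact hml h
  · exact hmr h

theorem step {Γ : unitInterval → Fin 12 → E3} (hc : Continuous Γ) (h0 : Γ 0 = p)
    (he : ∀ t, IsShortestPathEmbedding G (Γ t)) (hl : ∀ t v, Γ t v ∈ longitude (p v))
    (l r m : Fin 12) (hlr : G.Adj l r) (hml : m ≠ l)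
    (hmr : m ≠ r) (α β : ℝ) (hα : 0 < α) (hβ : 0 < β)
    (e0 : ((P m).1 : ℝ) = α * (P l).1 + β * (P r).1)
    (e1 : ((P m).2.1 : ℝ) = α * (P l).2.1 + β * (P r).2.1)
    (hs : ((P m).2.2 : ℝ) < α * (P l).2.2 + β * (P r).2.2) :
    hh m (Γ 1 m) < α * hh l (Γ 1 l) + β * hh r (Γ 1 r) := by
  have hcv : ∀ v, Continuous fun t => Γ t v := fun v => (continuous_pi_iff.1 hc) v
  have hci : ∀ v i, Continuous fun t => Γ t v i := by
    intro v i
    exact (PiLp.continuous_apply 2 _ i).comp (hcv v)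
  have hch : ∀ v, Continuous fun t => hh v (Γ t v) := by
    intro v
    unfold hh
    apply Continuous.div
    · exact (hci v 2).mul continuous_const
    · exact (continuous_const.mul (hci v 0)).add (continuous_const.mul (hci v 1))
    · intro t
      exact (den_pos (hl t v)).ne'
  by_contra hcon
  push Not at hcon
  let f : unitInterval → ℝ := fun t =>
    α * hh l (Γ t l) + β * hh r (Γ t r) - hh m (Γ t m)
  have hf : Continuous f :=
    ((continuous_const.mul (hch l)).add (continuous_const.mul (hch r))).sub (hch m)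
  have f0 : 0 ≤ f 0 := by
    simp only [f, h0, hh_p]
    linarith
  have f1 : f 1 ≤ 0 := by
    simp only [f]
    linarith
  obtain ⟨t, ht⟩ := mem_range_of_exists_le_of_exists_ge hf ⟨1, f1⟩ ⟨0, f0⟩
  apply never (he t) (hl t) hlr hml hmr hα hβ e0 e1
  simp only [f] at ht
  linarith

theorem not_sinkable : ¬ Sinkable G p := by
  rintro ⟨Γ, hc, h0, he, hl, h1⟩
  have hneg : ∀ v, hh v (Γ 1 v) < 0 := by
    intro v
    obtain ⟨l, hlp, -, -, h2⟩ := long_spec (hl 1 v)
    have := h1 v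
    rw [h2] at this
    by_contra hcon
    push Not at hcon
    have := mul_nonneg hlp.le hcon
    linarith
  have s1 := step hc h0 he hl 2 11 7 (by decide +kernel) (by decide) (by decide) (60/19) (463/19)
    (by norm_num) (by norm_num) (by norm_num [P_2, P_11, P_7])
    (by norm_num [P_2, P_11, P_7])
    (by norm_num [P_2, P_11, P_7])
  have s2 := step hc h0 he hl 6 0 2 (by decide +kernel) (by decide) (by decide) (24/61) (58/61)
    (by norm_num) (by norm_num) (by norm_num [P_6, P_0, P_2])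
    (by norm_num [P_6, P_0, P_2])
    (by norm_num [P_6, P_0, P_2])
  have s3 := step hc h0 he hl 10 5 6 (by decide +kernel) (by decide) (by decide) (13/41) (20/41)
    (by norm_num) (by norm_num) (by norm_num [P_10, P_5, P_6])
    (by norm_num [P_10, P_5, P_6])
    (by norm_num [P_10, P_5, P_6])
  have s4 := step hc h0 he hl 1 4 10 (by decide +kernel) (by decide) (by decide) (325/723)
    (191/1446)
    (by norm_num) (by norm_num) (by norm_num [P_1, P_4, P_10])
    (by norm_num [P_1, P_4, P_10])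
    (by norm_num [P_1, P_4, P_10])
  have s5 := step hc h0 he hl 7 3 1 (by decide +kernel) (by decide) (by decide) (1363/231)
    (866/231)
    (by norm_num) (by norm_num) (by norm_num [P_7, P_3, P_1])
    (by norm_num [P_7, P_3, P_1])
    (by norm_num [P_7, P_3, P_1])
  have n1 := hneg 11
  have n2 := hneg 0
  have n3 := hneg 5
  have n4 := hneg 4
  have n5 := hneg 3
  have n6 := hneg 7
  linarith

end Pool.Agent.V11122.Sink
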