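import Pool.Agent.V11122.Sink.Geo

set_option autoImplicit false

/-! The faces. -/

namespace Pool.Agent.V11122.Sink

/-- the open cone -/
def openCone (x y z : E3) : Set E3 :=
  {w | ∃ r s t : ℝ, 0 < r ∧ 0 < s ∧ 0 < t ∧ w = r • x + s • y + t • z}

theorem convex_openCone (x y z : E3) : Convex ℝ (openCone x y z) := by
  rintro u ⟨r, s, t, hr, hs, ht, rfl⟩ v ⟨r', s', t', hr', hs', ht', rfl⟩ a b ha hb hab
  have key : ∀ {q q' : ℝ}, 0 < q → 0 < q' → 0 < a * q + b * q' := by
    intro q q' hq hq'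
    rcases ha.lt_or_eq with h | h
    · have := mul_pos h hq
      have := mul_nonneg hb hq'.le
      linarith
    · have hb1 : b = 1 := by linarith
      rw [← h, hb1]; linarith
  refine ⟨a * r + b * r', a * s + b * s', a * t + b * t', key hr hr', key hs hs', key ht ht', ?_⟩
  module

theorem openTriangle_eq {x y z : E3} (h0 : (0 : E3) ∉ openCone x y z) :
    openTriangle x y z = (fun w : E3 => ‖w‖⁻¹ • w) '' openCone x y z := by
  ext w
  constructor
  · rintro ⟨h1, h2⟩
    exact ⟨w, h2, by simp [h1]⟩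
  · rintro ⟨u, ⟨r, s, t, hr, hs, ht, e⟩, rfl⟩
    have hu : u ≠ 0 := by
      rintro rfl
      exact h0 ⟨r, s, t, hr, hs, ht, e⟩
    have hn : 0 < ‖u‖ := norm_pos_iff.2 hu
    have hi : 0 < ‖u‖⁻¹ := inv_pos.2 hn
    refine ⟨?_, ‖u‖⁻¹ * r, ‖u‖⁻¹ * s, ‖u‖⁻¹ * t, by positivity, by positivity, by positivity, ?_⟩
    · simp only [norm_smul, norm_inv, norm_norm]
      exact inv_mul_cancel₀ hn.ne'
    · simp only
      conv_lhs => rw [e]
      simp only [smul_add, smul_smul]
      rw [← e]

theorem isPreconnected_openTriangle {x y z : E3} (h0 : (0 : E3) ∉ openCone x y z) :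
    IsPreconnected (openTriangle x y z) := by
  rw [openTriangle_eq h0]
  apply (convex_openCone x y z).isPreconnected.image
  refine ContinuousOn.smul (f := fun w : E3 => ‖w‖⁻¹) (g := fun w : E3 => w) ?_
    continuousOn_id
  apply ContinuousOn.inv₀ continuous_norm.continuousOn
  intro w hw hw0
  rw [norm_eq_zero] at hw0
  rw [hw0] at hw
  exact h0 hw

theorem cross_rot (a b c : Z3) : det b c a = det a b c := by
  simp only [det, dot, cross]; ring

theorem cross_rot' (a b c : Z3) : det c a b = det a b c := by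
  simp only [det, dot, cross]; ring

theorem zero_notMem {a b c : Fin 12} (hD : 0 < det (P a) (P b) (P c)) :
    (0 : E3) ∉ openCone (p a) (p b) (p c) := by
  rintro ⟨r, s, t, hr, hs, ht, e⟩
  have h1 : evv (cross (P a) (P b)) 0 = t * evv (cross (P a) (P b)) (p c) := by
    conv_lhs => rw [e]
    rw [evv_add, evv_add, evv_smul, evv_smul, evv_smul, evv_p_zero (dot_cross_left _ _),
      evv_p_zero (dot_cross_right _ _)]
    ring
  rw [evv_zero] at h1
  have h2 : 0 < evv (cross (P a) (P b)) (p c) := evv_p_pos hD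
  have := mul_pos ht h2
  linarith

theorem v3_eq (v : Fin 12) : v3 (P v) = ‖v3 (P v)‖ • p v := by
  rw [p, smul_smul, mul_inv_cancel₀ (norm_pos v).ne', one_smul]

/-- coordinates of a point with respect to a face -/
theorem coords {a b c : Fin 12} (hD : 0 < det (P a) (P b) (P c)) (x : E3) :
    x = (evv (cross (P b) (P c)) x * (‖v3 (P a)‖ / (det (P a) (P b) (P c) : ℤ))) • p a +
      (evv (cross (P c) (P a)) x * (‖v3 (P b)‖ / (det (P a) (P b) (P c) : ℤ))) • p b +
      (evv (cross (P a) (P b)) x * (‖v3 (P c)‖ / (det (P a) (P b) (P c) : ℤ))) • p c := by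
  have h := cramer (P a) (P b) (P c) x
  have hD' : (0 : ℝ) < ((det (P a) (P b) (P c) : ℤ) : ℝ) := by exact_mod_cast hD
  rw [v3_eq a, v3_eq b, v3_eq c] at h
  have h2 : x = ((det (P a) (P b) (P c) : ℤ) : ℝ)⁻¹ • (((det (P a) (P b) (P c) : ℤ) : ℝ) • x) := by
    rw [smul_smul, inv_mul_cancel₀ hD'.ne', one_smul]
  rw [h] at h2
  conv_lhs => rw [h2]
  simp only [smul_add, smul_smul]
  congr 1
  · congr 1
    · congr 1
      rw [div_eq_mul_inv]; ring
    · congr 1
      rw [div_eq_mul_inv]; ring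
  · congr 1
    rw [div_eq_mul_inv]; ring

theorem face_disjoint {f : Fin 12 × Fin 12 × Fin 12} (hf : f ∈ faces) {x : E3}
    (hx : x ∈ openTriangle (p f.1) (p f.2.1) (p f.2.2)) {g : Fin 12 × Fin 12} (hg : g ∈ edges)
    (hx' : x ∈ arc (p g.1) (p g.2)) : False := by
  obtain ⟨hn, r, s, t, hr, hs, ht, e⟩ := hx
  obtain ⟨-, s', t', hs', ht', e'⟩ := hx'
  obtain ⟨k1, k2, k3, k4, k5, k6⟩ := check_fe f hf g hg
  set n := sepFE (P f.1) (P f.2.1) (P f.2.2) (P g.1) (P g.2)
  have a1 := evv_p_nonneg k1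
  have a2 := evv_p_nonneg k2
  have a3 := evv_p_nonneg k3
  have a5 := evv_p_nonpos k5
  have a6 := evv_p_nonpos k6
  have b1 : evv n x = r * evv n (p f.1) + s * evv n (p f.2.1) + t * evv n (p f.2.2) := by
    rw [e, evv_add, evv_add, evv_smul, evv_smul, evv_smul]
  have b2 : evv n x = s' * evv n (p g.1) + t' * evv n (p g.2) := by
    rw [e', evv_add, evv_smul, evv_smul]
  have c1 := mul_nonneg hr.le a1
  have c2 := mul_nonneg hs.le a2
  have c3 := mul_nonneg ht.le a3
  have c4 := mul_nonneg hs' (neg_nonneg.2 a5)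
  have c5 := mul_nonneg ht' (neg_nonneg.2 a6)
  have hpos : 0 < r * evv n (p f.1) + s * evv n (p f.2.1) + t * evv n (p f.2.2) := by
    have : 0 < dot n (P f.1) ∨ 0 < dot n (P f.2.1) ∨ 0 < dot n (P f.2.2) := by omega
    rcases this with h | h | h
    · have := mul_pos hr (evv_p_pos h)
      linarith
    · have := mul_pos hs (evv_p_pos h)
      linarith
    · have := mul_pos ht (evv_p_pos h)
      linarith
  nlinarith

theorem drawing_arc {x : E3} (hx : x ∈ drawing G p) : ∃ g ∈ edges, x ∈ arc (p g.1) (p g.2) := by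
  have key : ∀ a b, G.Adj a b → x ∈ arc (p a) (p b) → ∃ g ∈ edges, x ∈ arc (p g.1) (p g.2) := by
    intro a b hab h
    rcases adj_edges a b hab with h1 | h1
    · exact ⟨(a, b), h1, h⟩
    · exact ⟨(b, a), h1, by rw [arc_comm]; exact h⟩
  rcases hx with ⟨v, rfl⟩ | ⟨a, b, hab, h⟩
  · obtain ⟨w, hw⟩ := check_deg v
    exact key v w hw ⟨norm_p v, 1, 0, zero_le_one, le_rfl, by simp⟩
  · exact key a b hab h

theorem component {f : Fin 12 × Fin 12 × Fin 12} (hf : f ∈ faces) {x : E3}
    (hx : x ∈ openTriangle (p f.1) (p f.2.1) (p f.2.2)) :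
    connectedComponentIn (sphere \ drawing G p) x = openTriangle (p f.1) (p f.2.1) (p f.2.2) := by
  obtain ⟨h12, h23, h31, hD⟩ := check_face f hf
  have hsub : openTriangle (p f.1) (p f.2.1) (p f.2.2) ⊆ sphere \ drawing G p := by
    intro y hy
    refine ⟨hy.1, fun hd => ?_⟩
    obtain ⟨g, hg, hyg⟩ := drawing_arc hd
    exact face_disjoint hf hy hg hyg
  apply Set.Subset.antisymm
  · -- the component is contained in the triangle
    set K := connectedComponentIn (sphere \ drawing G p) x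
    have hK : IsPreconnected K := isPreconnected_connectedComponentIn
    have hKF : K ⊆ sphere \ drawing G p := connectedComponentIn_subset _ _
    set U : Set E3 := {y | 0 < evv (cross (P f.2.1) (P f.2.2)) y ∧
      0 < evv (cross (P f.2.2) (P f.1)) y ∧ 0 < evv (cross (P f.1) (P f.2.1)) y} with hU
    set W : Set E3 := {y | evv (cross (P f.2.1) (P f.2.2)) y < 0 ∨
      evv (cross (P f.2.2) (P f.1)) y < 0 ∨ evv (cross (P f.1) (P f.2.1)) y < 0} with hW
    have hUo : IsOpen U := by
      apply IsOpen.inter (isOpen_lt continuous_const (continuous_evv _))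
      exact IsOpen.inter (isOpen_lt continuous_const (continuous_evv _))
        (isOpen_lt continuous_const (continuous_evv _))
    have hWo : IsOpen W := by
      apply IsOpen.union (isOpen_lt (continuous_evv _) continuous_const)
      exact IsOpen.union (isOpen_lt (continuous_evv _) continuous_const)
        (isOpen_lt (continuous_evv _) continuous_const)
    have hD' : (0 : ℝ) < ((det (P f.1) (P f.2.1) (P f.2.2) : ℤ) : ℝ) := by exact_mod_cast hD
    have q1 : 0 < ‖v3 (P f.1)‖ / ((det (P f.1) (P f.2.1) (P f.2.2) : ℤ) : ℝ) :=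
      div_pos (norm_pos _) hD'
    have q2 : 0 < ‖v3 (P f.2.1)‖ / ((det (P f.1) (P f.2.1) (P f.2.2) : ℤ) : ℝ) :=
      div_pos (norm_pos _) hD'
    have q3 : 0 < ‖v3 (P f.2.2)‖ / ((det (P f.1) (P f.2.1) (P f.2.2) : ℤ) : ℝ) :=
      div_pos (norm_pos _) hD'
    have hUT : ∀ y ∈ U, ‖y‖ = 1 → y ∈ openTriangle (p f.1) (p f.2.1) (p f.2.2) := by
      rintro y ⟨y1, y2, y3⟩ hy
      exact ⟨hy, _, _, _, mul_pos y1 q1, mul_pos y2 q2, mul_pos y3 q3, coords hD y⟩
    have hcov : K ⊆ U ∪ W := by
      intro y hy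
      obtain ⟨hyS, hyD⟩ := hKF hy
      by_cases hyW : y ∈ W
      · exact Or.inr hyW
      left
      simp only [hW, Set.mem_setOf_eq, not_or, not_lt] at hyW
      obtain ⟨y1, y2, y3⟩ := hyW
      have hc := coords hD y
      refine ⟨lt_of_le_of_ne y1 ?_, lt_of_le_of_ne y2 ?_, lt_of_le_of_ne y3 ?_⟩
      · intro h0
        rw [← h0, zero_mul, zero_smul, zero_add] at hc
        exact hyD (Or.inr ⟨_, _, h23, hyS, _, _, mul_nonneg y2 q2.le, mul_nonneg y3 q3.le, hc⟩)
      · intro h0
        rw [← h0, zero_mul, zero_smul, add_zero] at hc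
        exact hyD (Or.inr ⟨_, _, h31.symm, hyS, _, _, mul_nonneg y1 q1.le,
          mul_nonneg y3 q3.le, hc⟩)
      · intro h0
        rw [← h0, zero_mul, zero_smul, add_zero] at hc
        exact hyD (Or.inr ⟨_, _, h12, hyS, _, _, mul_nonneg y1 q1.le, mul_nonneg y2 q2.le, hc⟩)
    have hxK : x ∈ K := mem_connectedComponentIn (hsub hx)
    have hxU : x ∈ U := by
      obtain ⟨-, r, s, t, hr, hs, ht, e⟩ := hx
      have e1 : 0 < evv (cross (P f.1) (P f.2.1)) (p f.2.2) := evv_p_pos hD
      have e2 : 0 < evv (cross (P f.2.1) (P f.2.2)) (p f.1) := by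
        apply evv_p_pos
        have : 0 < det (P f.2.1) (P f.2.2) (P f.1) := by rw [cross_rot]; exact hD
        exact this
      have e3 : 0 < evv (cross (P f.2.2) (P f.1)) (p f.2.1) := by
        apply evv_p_pos
        have : 0 < det (P f.2.2) (P f.1) (P f.2.1) := by rw [cross_rot']; exact hD
        exact this
      refine ⟨?_, ?_, ?_⟩
      · rw [e, evv_add, evv_add, evv_smul, evv_smul, evv_smul, evv_p_zero (dot_cross_left _ _),
          evv_p_zero (dot_cross_right _ _)]
        have := mul_pos hr e2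
        linarith
      · rw [e, evv_add, evv_add, evv_smul, evv_smul, evv_smul, evv_p_zero (dot_cross_left _ _),
          evv_p_zero (dot_cross_right _ _)]
        have := mul_pos hs e3
        linarith
      · rw [e, evv_add, evv_add, evv_smul, evv_smul, evv_smul, evv_p_zero (dot_cross_left _ _),
          evv_p_zero (dot_cross_right _ _)]
        have := mul_pos ht e1
        linarith
    have hdis : Disjoint U W := by
      rw [Set.disjoint_left]
      rintro y ⟨y1, y2, y3⟩ (h | h | h) <;> linarith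
    have hKU : K ⊆ U :=
      hK.subset_left_of_subset_union hUo hWo hdis hcov ⟨x, hxK, hxU⟩
    intro y hy
    exact hUT y (hKU hy) (hKF hy).1
  · exact (isPreconnected_openTriangle (zero_notMem hD)).subset_connectedComponentIn hx hsub

theorem triangulation : IsShortestPathTriangulation G p where
  toIsShortestPathEmbedding := embedding
  face := by
    rintro x ⟨hx, hxd⟩
    obtain ⟨f, hf, y1, y2, y3⟩ := cover (x 0) (x 1) (x 2)
    obtain ⟨h12, h23, h31, hD⟩ := check_face f hf
    refine ⟨f.1, f.2.1, f.2.2, h12, h23, h31, component hf ?_⟩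
    have hD' : (0 : ℝ) < ((det (P f.1) (P f.2.1) (P f.2.2) : ℤ) : ℝ) := by exact_mod_cast hD
    have q1 : 0 < ‖v3 (P f.1)‖ / ((det (P f.1) (P f.2.1) (P f.2.2) : ℤ) : ℝ) :=
      div_pos (norm_pos _) hD'
    have q2 : 0 < ‖v3 (P f.2.1)‖ / ((det (P f.1) (P f.2.1) (P f.2.2) : ℤ) : ℝ) :=
      div_pos (norm_pos _) hD'
    have q3 : 0 < ‖v3 (P f.2.2)‖ / ((det (P f.1) (P f.2.1) (P f.2.2) : ℤ) : ℝ) :=
      div_pos (norm_pos _) hD'
    have hc := coords hD x
    change 0 ≤ evv _ x at y1 y2 y3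
    refine ⟨hx, _, _, _, mul_pos (lt_of_le_of_ne y1 ?_) q1, mul_pos (lt_of_le_of_ne y2 ?_) q2,
      mul_pos (lt_of_le_of_ne y3 ?_) q3, hc⟩
    · intro h0
      rw [← h0, zero_mul, zero_smul, zero_add] at hc
      exact hxd (Or.inr ⟨_, _, h23, hx, _, _, mul_nonneg y2 q2.le, mul_nonneg y3 q3.le, hc⟩)
    · intro h0
      rw [← h0, zero_mul, zero_smul, add_zero] at hc
      exact hxd (Or.inr ⟨_, _, h31.symm, hx, _, _, mul_nonneg y1 q1.le,
        mul_nonneg y3 q3.le, hc⟩)
    · intro h0
      rw [← h0, zero_mul, zero_smul, add_zero] at hc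
      exact hxd (Or.inr ⟨_, _, h12, hx, _, _, mul_nonneg y1 q1.le, mul_nonneg y2 q2.le, hc⟩)
  card_vert := by simp
  card_edge := by rw [card_edges]; simp

end Pool.Agent.V11122.Sink
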